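import Pool.Agent.Helper30.RT.Defs

/-!
# Simultaneous singular value decomposition of a commuting family (`S_SIM`)
-/

set_option autoImplicit false

namespace Pool.Agent.Helper94.CK3

open Matrix Module Pool.Agent.Helper30.RT
open scoped ComplexOrder

/-- Joint orthonormal eigenbasis of a commuting family of symmetric operators. -/
theorem joint_basis {K E ι : Type} [RCLike K] [NormedAddCommGroup E] [InnerProductSpace K E]
    [FiniteDimensional K E] (T : ι → E →ₗ[K] E) (hT : ∀ i, (T i).IsSymmetric)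
    (hC : ∀ i j, Commute (T i) (T j)) {n : ℕ} (hn : finrank K E = n) :
    ∃ b : OrthonormalBasis (Fin n) K E, ∀ a i, ∃ c : K, T i (b a) = c • b a := by
  classical
  have h1 : DirectSum.IsInternal (fun α : ι → K ↦ ⨅ j, Module.End.eigenspace (T j) (α j)) :=
    LinearMap.IsSymmetric.directSum_isInternal_of_pairwise_commute hT fun i j _ => hC i j
  have hO := LinearMap.IsSymmetric.orthogonalFamily_iInf_eigenspaces hT
  have h2 : DirectSum.IsInternal (fun α : {α : ι → K // (⨅ j, Module.End.eigenspace (T j) (α j)) ≠ ⊥}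
      ↦ ⨅ j, Module.End.eigenspace (T j) (α.1 j)) :=
    (DirectSum.isInternal_ne_bot_iff (A := fun α : ι → K ↦ ⨅ j, Module.End.eigenspace (T j) (α j))).2 h1
  have hfin : Finite {α : ι → K // (⨅ j, Module.End.eigenspace (T j) (α j)) ≠ ⊥} :=
    WellFoundedGT.finite_ne_bot_of_iSupIndep h1.submodule_iSupIndep
  have := Fintype.ofFinite {α : ι → K // (⨅ j, Module.End.eigenspace (T j) (α j)) ≠ ⊥}
  have hO2 := hO.comp (γ := {α : ι → K // (⨅ j, Module.End.eigenspace (T j) (α j)) ≠ ⊥})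
    (f := Subtype.val) Subtype.val_injective
  refine ⟨h2.subordinateOrthonormalBasis hn hO2, fun a i => ?_⟩
  have h3 := h2.subordinateOrthonormalBasis_subordinate hn a hO2
  have h4 := (Submodule.mem_iInf _).1 h3 i
  exact ⟨_, Module.End.mem_eigenspace_iff.1 h4⟩


section Sim

variable {K : Type} [RCLike K] {n : ℕ}

theorem commute_aux {A : Submodule ℝ (Matrix (Fin 3) (Fin n) K)}
    (hA : ∀ B ∈ A, ∀ C ∈ A, B * Cᴴ = C * Bᴴ ∧ Bᴴ * C = Cᴴ * B) {B C D E : Matrix (Fin 3) (Fin n) K}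
    (hB : B ∈ A) (hC : C ∈ A) (hD : D ∈ A) (hE : E ∈ A) :
    B * Cᴴ * (D * Eᴴ) = D * Eᴴ * (B * Cᴴ) := by
  calc B * Cᴴ * (D * Eᴴ) = B * (Cᴴ * D) * Eᴴ := by simp only [Matrix.mul_assoc]
    _ = B * (Dᴴ * C) * Eᴴ := by rw [(hA C hC D hD).2]
    _ = (B * Dᴴ) * (C * Eᴴ) := by simp only [Matrix.mul_assoc]
    _ = (D * Bᴴ) * (E * Cᴴ) := by rw [(hA B hB D hD).1, (hA C hC E hE).1]
    _ = D * (Bᴴ * E) * Cᴴ := by simp only [Matrix.mul_assoc]
    _ = D * (Eᴴ * B) * Cᴴ := by rw [(hA B hB E hE).2]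
    _ = D * Eᴴ * (B * Cᴴ) := by simp only [Matrix.mul_assoc]

/-- The orthonormal joint eigenvectors as plain vectors. -/
theorem exists_vectors {A : Submodule ℝ (Matrix (Fin 3) (Fin n) K)}
    (hA : ∀ B ∈ A, ∀ C ∈ A, B * Cᴴ = C * Bᴴ ∧ Bᴴ * C = Cᴴ * B) :
    ∃ u : Fin 3 → Fin 3 → K, (∀ i j, star (u i) ⬝ᵥ u j = if i = j then 1 else 0) ∧
      ∀ i, ∀ B ∈ A, ∀ C ∈ A, ∃ c : ℝ, (B * Cᴴ) *ᵥ u i = ((c : ℝ) : K) • u i := by
  classical
  let T : A × A → EuclideanSpace K (Fin 3) →ₗ[K] EuclideanSpace K (Fin 3) :=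
    fun p => Matrix.toEuclideanLin (p.1.1 * (p.2.1)ᴴ)
  have hT : ∀ p, (T p).IsSymmetric := by
    intro p
    refine (Matrix.isSymmetric_toEuclideanLin_iff).2 ?_
    change (p.1.1 * (p.2.1)ᴴ)ᴴ = _
    rw [Matrix.conjTranspose_mul, Matrix.conjTranspose_conjTranspose]
    exact ((hA p.1.1 p.1.2 p.2.1 p.2.2).1).symm
  have hC : ∀ p q, Commute (T p) (T q) := by
    intro p q
    have h := commute_aux hA p.1.2 p.2.2 q.1.2 q.2.2
    change T p * T q = T q * T p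
    refine LinearMap.ext fun x => ?_
    change T p (T q x) = T q (T p x)
    simp only [T, Matrix.toLpLin_apply, Matrix.mulVec_mulVec, h]
  obtain ⟨b, hb⟩ := joint_basis T hT hC (n := 3) (by simp)
  refine ⟨fun i => (b i).ofLp, fun i j => ?_, fun i B hB C hC' => ?_⟩
  · have h := orthonormal_iff_ite.1 b.orthonormal i j
    rw [EuclideanSpace.inner_eq_star_dotProduct] at h
    rw [dotProduct_comm] at h
    exact h
  · obtain ⟨c, hc⟩ := hb i (⟨B, hB⟩, ⟨C, hC'⟩)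
    have hne : b i ≠ 0 := b.orthonormal.ne_zero i
    have hcc : (starRingEnd K) c = c := by
      refine (hT (⟨B, hB⟩, ⟨C, hC'⟩)).conj_eigenvalue_eq_self (μ := c) ?_
      exact Module.End.hasEigenvalue_of_hasEigenvector
        ⟨Module.End.mem_eigenspace_iff.2 hc, hne⟩
    refine ⟨RCLike.re c, ?_⟩
    rw [RCLike.conj_eq_iff_re.1 hcc]
    have := congrArg (fun x : EuclideanSpace K (Fin 3) => x.ofLp) hc
    simpa [T, Matrix.toLpLin_apply] using this

theorem dot_aux (B C : Matrix (Fin 3) (Fin n) K) (u v : Fin 3 → K) :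
    star (Bᴴ *ᵥ u) ⬝ᵥ (Cᴴ *ᵥ v) = star u ⬝ᵥ ((B * Cᴴ) *ᵥ v) := by
  rw [Matrix.star_mulVec, Matrix.conjTranspose_conjTranspose, ← Matrix.dotProduct_mulVec,
    Matrix.mulVec_mulVec]

theorem star_dot_self_eq_zero {m : ℕ} {e : Fin m → K} (h : star e ⬝ᵥ e = 0) : e = 0 :=
  dotProduct_star_self_eq_zero.1 h

/-- All the vectors `Bᴴ u` are real multiples of one vector. -/
theorem exists_line {A : Submodule ℝ (Matrix (Fin 3) (Fin n) K)}
    (hA : ∀ B ∈ A, ∀ C ∈ A, B * Cᴴ = C * Bᴴ ∧ Bᴴ * C = Cᴴ * B) (u : Fin 3 → K)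
    (hu : star u ⬝ᵥ u = 1)
    (hT : ∀ B ∈ A, ∀ C ∈ A, ∃ c : ℝ, (B * Cᴴ) *ᵥ u = ((c : ℝ) : K) • u) :
    ∃ e : Fin n → K, (e = 0 ∨ star e ⬝ᵥ e = 1) ∧ (∃ C ∈ A, ∃ r : K, e = r • (Cᴴ *ᵥ u)) ∧
      ∀ B ∈ A, ∃ d : ℝ, Bᴴ *ᵥ u = ((d : ℝ) : K) • e := by
  classical
  by_cases h0 : ∀ B ∈ A, Bᴴ *ᵥ u = 0
  · refine ⟨0, Or.inl rfl, ⟨0, A.zero_mem, 0, by simp⟩, fun B hB => ⟨0, by simp [h0 B hB]⟩⟩
  · push Not at h0
    obtain ⟨C, hC, hC0⟩ := h0
    obtain ⟨α, hα⟩ := hT C hC C hC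
    have hα' : star (Cᴴ *ᵥ u) ⬝ᵥ (Cᴴ *ᵥ u) = ((α : ℝ) : K) := by
      rw [dot_aux, hα, dotProduct_smul, hu, smul_eq_mul, mul_one]
    have hnn : 0 ≤ α := by
      have h1 : (0 : K) ≤ star (Cᴴ *ᵥ u) ⬝ᵥ (Cᴴ *ᵥ u) := dotProduct_star_self_nonneg _
      rw [hα'] at h1
      exact RCLike.ofReal_nonneg.1 h1
    have hne : α ≠ 0 := by
      rintro rfl
      exact hC0 (star_dot_self_eq_zero (by rw [hα']; simp))
    have hpos : 0 < α := lt_of_le_of_ne hnn (Ne.symm hne)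
    have hs : 0 < Real.sqrt α := Real.sqrt_pos.2 hpos
    refine ⟨(((Real.sqrt α)⁻¹ : ℝ) : K) • (Cᴴ *ᵥ u), Or.inr ?_, ⟨C, hC, _, rfl⟩, fun B hB => ?_⟩
    · rw [star_smul, smul_dotProduct, dotProduct_smul, hα', RCLike.star_def, RCLike.conj_ofReal,
        smul_eq_mul, smul_eq_mul, ← RCLike.ofReal_mul, ← RCLike.ofReal_mul, ← RCLike.ofReal_one]
      congr 1
      have := Real.mul_self_sqrt hnn
      field_simp
      nlinarith
    · obtain ⟨β, hβ⟩ := hT B hB C hC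
      -- `α w(B) = β w(C)`
      have h1 : ((α : ℝ) : K) • (Bᴴ *ᵥ u) = ((β : ℝ) : K) • (Cᴴ *ᵥ u) := by
        calc ((α : ℝ) : K) • (Bᴴ *ᵥ u) = Bᴴ *ᵥ (((α : ℝ) : K) • u) := by rw [Matrix.mulVec_smul]
          _ = Bᴴ *ᵥ ((C * Cᴴ) *ᵥ u) := by rw [hα]
          _ = ((Bᴴ * C) * Cᴴ) *ᵥ u := by rw [Matrix.mulVec_mulVec, Matrix.mul_assoc]
          _ = ((Cᴴ * B) * Cᴴ) *ᵥ u := by rw [(hA B hB C hC).2]
          _ = Cᴴ *ᵥ ((B * Cᴴ) *ᵥ u) := by rw [Matrix.mulVec_mulVec, Matrix.mul_assoc]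
          _ = Cᴴ *ᵥ (((β : ℝ) : K) • u) := by rw [hβ]
          _ = ((β : ℝ) : K) • (Cᴴ *ᵥ u) := by rw [Matrix.mulVec_smul]
      refine ⟨β / α * Real.sqrt α, ?_⟩
      have h2 : Bᴴ *ᵥ u = ((β / α : ℝ) : K) • (Cᴴ *ᵥ u) := by
        have h3 : ((α : ℝ) : K) ≠ 0 := RCLike.ofReal_ne_zero.2 hne
        calc Bᴴ *ᵥ u = (((α : ℝ) : K)⁻¹ * ((α : ℝ) : K)) • (Bᴴ *ᵥ u) := by
              rw [inv_mul_cancel₀ h3, one_smul]
          _ = ((α : ℝ) : K)⁻¹ • (((β : ℝ) : K) • (Cᴴ *ᵥ u)) := by rw [mul_smul, h1]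
          _ = _ := by rw [smul_smul]; congr 1; push_cast; field_simp
      rw [h2, smul_smul, ← RCLike.ofReal_mul]
      congr 2
      field_simp

end Sim

theorem s_SIM : S_SIM := by
  classical
  intro K _ n hn A hA
  obtain ⟨u, hu, hT⟩ := exists_vectors hA
  have hl := fun i => exists_line hA (u i) (by simpa using hu i i) (hT i)
  choose e he hr hd using hl
  have horth : ∀ i j, i ≠ j → star (e i) ⬝ᵥ e j = 0 := by
    intro i j hij
    obtain ⟨C, hC, r, hr1⟩ := hr i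
    obtain ⟨D, hD, t, hr2⟩ := hr j
    obtain ⟨c, hc⟩ := hT j C hC D hD
    rw [hr1, hr2, star_smul, smul_dotProduct, dotProduct_smul, dot_aux, hc, dotProduct_smul, hu i j,
      if_neg hij]
    simp
  let v : Fin n → EuclideanSpace K (Fin n) :=
    fun j => WithLp.toLp 2 (if h : (j : ℕ) < 3 then e ⟨j, h⟩ else 0)
  let s : Set (Fin n) := {j | ∃ h : (j : ℕ) < 3, e ⟨j, h⟩ ≠ 0}
  have hv : Orthonormal K (s.domRestrict v) := by
    rw [orthonormal_iff_ite]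
    rintro ⟨j, hj, hj0⟩ ⟨k, hk, hk0⟩
    rw [EuclideanSpace.inner_eq_star_dotProduct, dotProduct_comm]
    change star (v j).ofLp ⬝ᵥ (v k).ofLp = _
    simp only [v, dif_pos hj, dif_pos hk]
    by_cases hjk : j = k
    · subst hjk
      simpa using (he ⟨j, hj⟩).resolve_left hj0
    · have hne : (⟨j, hj⟩ : Fin 3) ≠ ⟨k, hk⟩ := fun h => hjk (Fin.ext (by simpa using h))
      rw [horth _ _ hne, if_neg (fun h => hjk (Subtype.ext_iff.1 h))]
  obtain ⟨f, hf⟩ := hv.exists_orthonormalBasis_extension_of_card_eq (by simp)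
  refine ⟨Matrix.of fun i a => star (u i a), Matrix.of fun j a => star ((f j).ofLp a), ?_, ?_, ?_⟩
  · ext i j
    rw [Matrix.mul_apply, Matrix.one_apply, ← hu i j]
    simp [dotProduct]
  · ext i j
    have h := orthonormal_iff_ite.1 f.orthonormal i j
    rw [EuclideanSpace.inner_eq_star_dotProduct, dotProduct_comm] at h
    rw [Matrix.mul_apply, Matrix.one_apply, ← h]
    simp [dotProduct]
  · intro B hB
    choose d hd' using fun i => hd i B hB
    refine ⟨fun i => if e i = 0 then 0 else d i, ?_⟩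
    ext i j
    have h1 : ((Matrix.of fun i a => star (u i a)) * B * (Matrix.of fun j a => star ((f j).ofLp a))ᴴ)
        i j = star (Bᴴ *ᵥ u i) ⬝ᵥ (f j).ofLp := by
      rw [Matrix.star_mulVec, Matrix.conjTranspose_conjTranspose, Matrix.mul_apply]
      simp only [dotProduct, Matrix.vecMul, Matrix.mul_apply, Matrix.conjTranspose_apply,
        Matrix.of_apply, star_star, Pi.star_apply]
    rw [h1, hd' i]
    simp only [dg, Matrix.of_apply]
    by_cases hi : e i = 0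
    · simp [hi]
    · have hin : ((⟨i, by omega⟩ : Fin n) : ℕ) < 3 := i.2
      have hfi : f ⟨i, by omega⟩ = v ⟨i, by omega⟩ := hf _ ⟨hin, hi⟩
      have hvi : (v ⟨i, by omega⟩).ofLp = e i := by
        simp only [v]
        rw [dif_pos hin]
      have h2 := orthonormal_iff_ite.1 f.orthonormal ⟨i, by omega⟩ j
      rw [EuclideanSpace.inner_eq_star_dotProduct, dotProduct_comm, hfi, hvi] at h2
      rw [star_smul, smul_dotProduct, h2, RCLike.star_def, RCLike.conj_ofReal]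
      by_cases hij : (j : ℕ) = (i : ℕ)
      · rw [if_pos (Fin.ext hij.symm), if_pos hij, if_neg hi]
        simp
      · rw [if_neg (fun h => hij (by rw [← h])), if_neg hij]
        simp

end Pool.Agent.Helper94.CK3
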